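import Pool.Agent.H353R3.S8

/-! # Monotone cutoffs, with explicit ratio -/

set_option autoImplicit false

open Complex MeasureTheory Filter Topology Set
open scoped ContDiff
open H353

namespace Pool.Agent.R303

noncomputable section

/-- monotone steps, for every abscissa `σ < θ` -/
theorem good_mono_gen (σ ε θ : ℝ) (hε : 0 < ε) (hb1 : 1 / 2 < σ) (hb2 : σ < θ) (h2 : θ < 1) :
    ∃ g, Good (ε + HT σ) θ g ∧ Monotone g := by
  have hb3 : σ < 1 := by linarith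
  have := ZS_countable σ hb1 hb3
  have hf := Ph_ST ε hε
  have hK := KS_kill σ hb1 hb3
  have h0 : ∀ i, 0 ≤ hx σ i := fun i => (hx_pos _ i).le
  have hs := hx_summable σ hb1 hb3
  have hGK : ∀ s : ℂ, 0 < s.re → GF (Ph ε) s * KK (bx σ) (hx σ) s = GG ε s * KS σ s :=
    fun s _ => rfl
  refine ⟨Av (bx σ) (hx σ) (Ph ε), ⟨?_, ?_, ?_⟩, ?_⟩
  · exact Av_ST _ _ h0 hs hf
  · exact core_mu _ _ h0 hs hb1 hb2 h2 hε hf hK hGK
  · exact core_lam _ _ h0 hs hb1 hb2 h2 hε hf hK hGK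
  · exact Av_mono _ _ h0 hs hf (Ph_mono ε hε)

/-- monotone cutoffs of every ratio `A` with `log A > HT σ` -/
theorem W_mono_gen (σ θ A : ℝ) (hb1 : 1 / 2 < σ) (hb2 : σ < θ) (h2 : θ < 1) (hA : 0 < A)
    (h : HT σ < Real.log A) :
    ∃ W : ℝ → ℝ, CutW A W ∧ Monotone W ∧ bdW aM θ W ∧ bdW aL θ W := by
  obtain ⟨g, hg, hm⟩ := good_mono_gen σ (Real.log A - HT σ) θ (by linarith) hb1 hb2 h2
  have hc := wg_cut hg.st
  rw [show Real.log A - HT σ + HT σ = Real.log A by ring, Real.exp_log hA] at hc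
  exact ⟨wg g, hc, wg_mono hg.st hm, wg_bd hg.st aM_zero θ hg.mu,
    wg_bd hg.st (by simp [aL]) θ hg.lam⟩

theorem zeta_ne_one {ρ : ℂ} (h : riemannZeta ρ = 0) : ρ ≠ 1 := by
  rintro rfl
  exact riemannZeta_one_ne_zero h

/-- the multiplicity of a zero -/
theorem mu_eq_order {ρ : ℂ} (h : riemannZeta ρ = 0) : mu ρ = analyticOrderNatAt riemannZeta ρ := by
  have h1 := zeta_ne_one h
  have hz : AnalyticAt ℂ riemannZeta ρ := by
    refine DifferentiableOn.analyticAt (s := {1}ᶜ) (fun s hs => ?_) (isOpen_compl_singleton.mem_nhds h1)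
    exact (differentiableAt_riemannZeta hs).differentiableWithinAt
  have e : FF =ᶠ[𝓝 ρ] (fun z => z - 1) * riemannZeta := by
    filter_upwards [isOpen_ne.mem_nhds h1] with z hz using ZU.J_g2b.FF_ne hz
  have h2 : AnalyticAt ℂ (fun z : ℂ => z - 1) ρ := by fun_prop
  have h3 : analyticOrderAt (fun z : ℂ => z - 1) ρ = 0 := by
    rw [analyticOrderAt_eq_zero]
    right
    exact sub_ne_zero.2 h1
  have h4 : analyticOrderAt FF ρ = analyticOrderAt riemannZeta ρ := by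
    rw [analyticOrderAt_congr e, analyticOrderAt_mul h2 hz, h3, zero_add]
  have h5 := mu_cast ρ
  rw [h4] at h5
  unfold analyticOrderNatAt
  rw [← h5]
  rfl

theorem FF_zero_iff {ρ : ℂ} (him : 0 < ρ.im) : FF ρ = 0 ↔ riemannZeta ρ = 0 := by
  have h1 : ρ ≠ 1 := by
    rintro rfl
    simp at him
  rw [show FF ρ = (ρ - 1) * riemannZeta ρ from ZU.J_g2b.FF_ne h1, mul_eq_zero]
  constructor
  · rintro (h | h)
    · exact absurd (sub_eq_zero.1 h) h1
    · exact h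
  · exact Or.inr

/-- the zeros of zeta in the upper half plane with real part at least `σ` -/
abbrev HZ (σ : ℝ) : Type := {ρ : ℂ // riemannZeta ρ = 0 ∧ σ ≤ ρ.re ∧ 0 < ρ.im}

def hzEquiv (σ : ℝ) : HZ σ ≃ ZS σ :=
  Equiv.subtypeEquivRight fun ρ => by
    constructor
    · rintro ⟨h1, h2, h3⟩
      exact ⟨(FF_zero_iff h3).2 h1, h2, h3⟩
    · rintro ⟨h1, h2, h3⟩
      exact ⟨(FF_zero_iff h3).1 h1, h2, h3⟩

theorem HT_zeta (σ : ℝ) (h1 : 1 / 2 < σ) (h2 : σ < 1) :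
    Summable (fun ρ : HZ σ => (analyticOrderNatAt riemannZeta (ρ : ℂ) : ℝ) / (ρ : ℂ).im) ∧
    HT σ = Real.pi * ∑' ρ : HZ σ, (analyticOrderNatAt riemannZeta (ρ : ℂ) : ℝ) / (ρ : ℂ).im := by
  have e2 : (fun ρ : HZ σ => (analyticOrderNatAt riemannZeta (ρ : ℂ) : ℝ) / (ρ : ℂ).im) =
      (fun ρ : ZS σ => (mu ρ.1 : ℝ) / ρ.1.im) ∘ hzEquiv σ := by
    funext ρ
    simp only [Function.comp_apply]
    rw [← mu_eq_order ρ.2.1]
    rfl
  have e3 : HT σ = Real.pi * ∑' ρ : ZS σ, (mu ρ.1 : ℝ) / ρ.1.im := hx_tsum σ h1 h2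
  rw [e2, e3]
  refine ⟨(Equiv.summable_iff (hzEquiv σ)).2 (zero_sum σ h1 h2), ?_⟩
  congr 1
  exact (Equiv.tsum_eq (hzEquiv σ) (fun ρ : ZS σ => (mu ρ.1 : ℝ) / ρ.1.im)).symm

end

end Pool.Agent.R303
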